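import Pool.Agent.H95.DSp

set_option autoImplicit false

open Pool.Agent.H95.DSp

theorem Pool.Agent.Results.MP_2c87a3_an.Counter.result :
    ∃ (M : ℕ) (A B : Finset ℤ), 3 ≤ M ∧ (∀ a ∈ A, 0 ≤ a ∧ a < M) ∧ (∀ b ∈ B, 0 ≤ b ∧ b < M) ∧
      A.card = B.card ∧ 1 < A.card ∧ A.card < M ∧
      Distributed M A B ∧ ¬Spectral M A B ∧ ¬Spectral (M ^ 2) A B :=
  ⟨24, {0, 4, 16, 20}, {0, 3, 18, 21}, by decide, by decide, by decide, by decide, by decide,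
    by decide, main⟩
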